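import Mathlib
import Pool.Agent.H.MP_b5c594_nt.B

set_option autoImplicit false

namespace Pool.Agent.Results.MP_b5c594_nt.Q1

open Matrix Polynomial Pool.Agent.Hb5c5

noncomputable section

/-- coefficients of `x ^ 2`, `x y`, `y ^ 2` in `(a₁ x + b₁ y) (a₂ x + b₂ y) / (a₁ b₂ - a₂ b₁)` -/
def MD (a₁ b₁ a₂ b₂ : ℝ) : ℝ × ℝ × ℝ :=
  (a₁ * a₂ / (a₁ * b₂ - a₂ * b₁), (a₁ * b₂ + a₂ * b₁) / (a₁ * b₂ - a₂ * b₁),
    b₁ * b₂ / (a₁ * b₂ - a₂ * b₁))

/-- Markov-Davenport form of the arrangement of the lines spanned by `p` and `q` -/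
def form (p q : ℝ × ℝ) : ℝ × ℝ × ℝ := MD p.2 (-p.1) q.2 (-q.1)

/-- largest absolute value of the three coefficients -/
def height (c : ℝ × ℝ × ℝ) : ℝ := max |c.1| (max |c.2.1| |c.2.2|)

/-- discrepancy of the arrangements spanned by `p, q` and by `p', q'` -/
def rho (p q p' q' : ℝ × ℝ) : ℝ :=
  min (height (form p q + form p' q')) (height (form p q - form p' q'))

def toR (v : ℤ × ℤ) : ℝ × ℝ := ((v.1 : ℝ), (v.2 : ℝ))

/-- primitive integer vectors on two distinct lines, of size at most `N` -/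
def Admissible (N : ℕ) (v w : ℤ × ℤ) : Prop :=
  IsCoprime v.1 v.2 ∧ IsCoprime w.1 w.2 ∧ v.1 * w.2 - w.1 * v.2 ≠ 0 ∧
    max (max |v.1| |v.2|) (max |w.1| |w.2|) ≤ (N : ℤ)

/-- `v, w` are primitive vectors on the two lines of a best approximation of size at most `N` -/
def IsBest (p q : ℝ × ℝ) (N : ℕ) (v w : ℤ × ℤ) : Prop :=
  Admissible N v w ∧
    ∀ v' w', Admissible N v' w' → rho p q (toR v) (toR w) ≤ rho p q (toR v') (toR w')

/-- `p, q` span the two eigenlines of a matrix in `GL(2, ℤ)` whose characteristic polynomial is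
irreducible over `ℚ` with two real roots -/
def IsAlgebraic (p q : ℝ × ℝ) : Prop :=
  p ≠ 0 ∧ q ≠ 0 ∧ ∃ A : Matrix (Fin 2) (Fin 2) ℤ, IsUnit A.det ∧
    Irreducible (A.charpoly.map (Int.castRingHom ℚ)) ∧ ∃ l m : ℝ, l ≠ m ∧
      A.map (Int.cast : ℤ → ℝ) *ᵥ ![p.1, p.2] = l • ![p.1, p.2] ∧
      A.map (Int.cast : ℤ → ℝ) *ᵥ ![q.1, q.2] = m • ![q.1, q.2]

/-- the closed angle spanned by `p` and `q` -/
def angle (p q : ℝ × ℝ) : Set (ℝ × ℝ) := {w | ∃ α β : ℝ, 0 ≤ α ∧ 0 ≤ β ∧ w = α • p + β • q}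

/-- the sail of an angle -/
def sail (C : Set (ℝ × ℝ)) : Set (ℝ × ℝ) :=
  frontier (convexHull ℝ {w ∈ C | w ≠ 0 ∧ ∃ a b : ℤ, w = ((a : ℝ), (b : ℝ))})

/-- the geometric continued fraction: the union of the sails of the four angles -/
def fraction (p q : ℝ × ℝ) : Set (ℝ × ℝ) :=
  sail (angle p q) ∪ sail (angle p (-q)) ∪ sail (angle (-p) q) ∪ sail (angle (-p) (-q))

lemma angle_iff {s : ℝ} (h0 : 0 < s) (i j : ℤ) (hi : i = 1 ∨ i = -1) (hj : j = 1 ∨ j = -1)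
    (w : ℝ × ℝ) : w ∈ angle ((i : ℝ) • ((2001 + s) / 2, 1)) ((j : ℝ) • ((2001 - s) / 2, 1)) ↔
      0 ≤ ((-j : ℤ) : ℝ) * xi s w.1 w.2 ∧ 0 ≤ (i : ℝ) * Hb5c5.eta s w.1 w.2 := by
  have hi2 : (i : ℝ) ^ 2 = 1 := by rcases hi with rfl | rfl <;> norm_num
  have hj2 : (j : ℝ) ^ 2 = 1 := by rcases hj with rfl | rfl <;> norm_num
  constructor
  · rintro ⟨α, β, hα, hβ, rfl⟩
    simp only [xi, Hb5c5.eta, Prod.fst_add, Prod.snd_add, Prod.smul_fst, Prod.smul_snd, smul_eq_mul]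
    push_cast
    exact ⟨(mul_nonneg hβ h0.le).trans_eq (by linear_combination -β * s * hj2),
      (mul_nonneg hα h0.le).trans_eq (by linear_combination -α * s * hi2)⟩
  · rintro ⟨h1, h2⟩
    refine ⟨_, _, div_nonneg h2 h0.le, div_nonneg h1 h0.le, ?_⟩
    ext
    · simp only [xi, Hb5c5.eta, Prod.fst_add, Prod.smul_fst, smul_eq_mul]
      push_cast
      field_simp
      rw [hi2, hj2]; ring
    · simp only [xi, Hb5c5.eta, Prod.snd_add, Prod.smul_snd, smul_eq_mul]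
      push_cast
      field_simp
      rw [hi2, hj2]; ring

lemma frac_unit {s : ℝ} (hs : s ^ 2 = 5) (h0 : 0 < s) (v : ℤ × ℤ) (hv : IsCoprime v.1 v.2)
    (h : toR v ∈ fraction ((2001 + s) / 2, 1) ((2001 - s) / 2, 1)) :
    nf v.1 v.2 = 1 ∨ nf v.1 v.2 = -1 := by
  have key : ∀ i j : ℤ, (i = 1 ∨ i = -1) → (j = 1 ∨ j = -1) →
      toR v ∈ sail (angle ((i : ℝ) • ((2001 + s) / 2, 1)) ((j : ℝ) • ((2001 - s) / 2, 1))) →
      nf v.1 v.2 = 1 ∨ nf v.1 v.2 = -1 := fun i j hi hj h =>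
    sail_unit hs h0 (-j) i (by omega) hi _ (angle_iff h0 i j hi hj) v.1 v.2 hv h
  rcases h with ((h | h) | h) | h
  · exact key 1 1 (by omega) (by omega) (by simpa using h)
  · exact key 1 (-1) (by omega) (by omega) (by simpa using h)
  · exact key (-1) 1 (by omega) (by omega) (by simpa using h)
  · exact key (-1) (-1) (by omega) (by omega) (by simpa using h)

lemma formR {s : ℝ} (hs : s ^ 2 = 5) :
    form ((2001 + s) / 2, 1) ((2001 - s) / 2, 1) = (1 / s, -2001 / s, 1000999 / s) := by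
  have e : (1 : ℝ) * -((2001 - s) / 2) - 1 * -((2001 + s) / 2) = s := by ring
  simp only [form, MD, e]
  congr 2
  · ring
  · congr 1; ring
  · congr 1; linear_combination (-1 / 4) * hs

lemma formZ (v w : ℤ × ℤ) : form (toR v) (toR w) =
    ((v.2 : ℝ) * w.2 / (v.1 * w.2 - w.1 * v.2),
      -((v.2 : ℝ) * w.1 + v.1 * w.2) / (v.1 * w.2 - w.1 * v.2),
      (v.1 : ℝ) * w.1 / (v.1 * w.2 - w.1 * v.2)) := by
  have e : (v.2 : ℝ) * -(w.1 : ℝ) - w.2 * -(v.1 : ℝ) = v.1 * w.2 - w.1 * v.2 := by ring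
  simp only [form, MD, toR, e]
  congr 2
  · congr 1; ring
  · congr 1; ring

lemma alg {s : ℝ} (hs : s ^ 2 = 5) (h0 : 0 < s) :
    IsAlgebraic ((2001 + s) / 2, 1) ((2001 - s) / 2, 1) := by
  refine ⟨by simp, by simp, !![1001, -1000999; 1, -1000], ?_, ?_, (1 + s) / 2, (1 - s) / 2,
    by linarith, ?_, ?_⟩
  · simp [det_fin_two]
  · have e : (!![1001, -1000999; 1, -1000] : Matrix (Fin 2) (Fin 2) ℤ).charpoly.map
        (Int.castRingHom ℚ) = X ^ 2 - X - 1 := by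
      rw [charpoly_fin_two]
      simp [det_fin_two, trace_fin_two, sub_eq_add_neg]
    have hd : (X ^ 2 - X - 1 : ℚ[X]).natDegree = 2 := by compute_degree!
    rw [e, irreducible_iff_roots_eq_zero_of_degree_le_three (by rw [hd]) (by rw [hd]; norm_num),
      Multiset.eq_zero_iff_forall_notMem]
    intro x hx
    have h1 : x ^ 2 - x - 1 = 0 := by simpa using (mem_roots'.mp hx).2
    have h2 : Irrational (√(5 : ℕ)) := Nat.Prime.irrational_sqrt (by norm_num)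
    apply h2
    refine ⟨|2 * x - 1|, ?_⟩
    have h3 : ((x : ℝ)) ^ 2 - x - 1 = 0 := by exact_mod_cast h1
    push_cast
    rw [← Real.sqrt_sq_eq_abs]
    congr 1
    linear_combination 4 * h3
  · ext i; fin_cases i
    · simp [mulVec, dotProduct, Fin.sum_univ_two]; linear_combination (-1 / 4) * hs
    · simp [mulVec, dotProduct, Fin.sum_univ_two]; ring
  · ext i; fin_cases i
    · simp [mulVec, dotProduct, Fin.sum_univ_two]; linear_combination (-1 / 4) * hs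
    · simp [mulVec, dotProduct, Fin.sum_univ_two]; ring

lemma best_exists (p q : ℝ × ℝ) (N : ℕ) (hN : 1 ≤ N) : ∃ v w, IsBest p q N v w := by
  have hfin : {t : (ℤ × ℤ) × (ℤ × ℤ) | Admissible N t.1 t.2}.Finite := by
    have h := Set.finite_Icc (-(N : ℤ)) N
    refine ((h.prod h).prod (h.prod h)).subset ?_
    rintro ⟨v, w⟩ ⟨-, -, -, h4⟩
    simp only [max_le_iff, abs_le] at h4
    exact ⟨⟨h4.1.1, h4.1.2⟩, h4.2.1, h4.2.2⟩
  obtain ⟨t, ht, hmin⟩ := Set.exists_min_image _ (fun t => rho p q (toR t.1) (toR t.2)) hfin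
    ⟨((1, 0), (0, 1)), isCoprime_one_left, isCoprime_one_right, by norm_num, by simpa using hN⟩
  exact ⟨t.1, t.2, ht, fun v' w' h => hmin (v', w') h⟩

theorem result : ∃ p q : ℝ × ℝ, IsAlgebraic p q ∧ ∃ N₀ : ℕ, ∀ N : ℕ, N₀ ≤ N →
    (∃ v w, IsBest p q N v w) ∧
      ∀ v w, IsBest p q N v w → toR v ∉ fraction p q ∨ toR w ∉ fraction p q := by
  obtain ⟨s, h0, hs⟩ : ∃ s : ℝ, 0 < s ∧ s ^ 2 = 5 :=
    ⟨√5, Real.sqrt_pos.mpr (by norm_num), Real.sq_sqrt (by norm_num)⟩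
  refine ⟨_, _, alg hs h0, 10 ^ 12, fun N hN => ⟨best_exists _ _ N (by omega), ?_⟩⟩
  rintro v w ⟨⟨hv, hw, hd, hsz⟩, hbest⟩
  by_contra hc
  push Not at hc
  have n1 := frac_unit hs h0 v hv hc.1
  have n2 := frac_unit hs h0 w hw hc.2
  obtain ⟨x1, y1, x2, y2, E, c1, c2, cd, s1, s2, s3, s4, hNE, hE, u1, u2, u3⟩ :=
    upper hs h0 (N : ℝ) (by exact_mod_cast hN)
  have hb := hbest (x1, y1) (x2, y2) ⟨c1, c2, cd, by
    simp only [max_le_iff]
    exact ⟨⟨by exact_mod_cast s1, by exact_mod_cast s2⟩, by exact_mod_cast s3,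
      by exact_mod_cast s4⟩⟩
  have hup : rho ((2001 + s) / 2, 1) ((2001 - s) / 2, 1) (toR (x1, y1)) (toR (x2, y2)) ≤
      2002 / E ^ 2 := by
    refine (min_le_right _ _).trans ?_
    rw [formR hs, formZ]
    exact max_le u1 (max_le u2 u3)
  have hle := hb.trans hup
  simp only [max_le_iff] at hsz
  have z1 : |(v.1 : ℝ)| ≤ N := by exact_mod_cast hsz.1.1
  have z2 : |(w.1 : ℝ)| ≤ N := by exact_mod_cast hsz.2.1
  have hE0 : 0 < E := by linarith
  have he : 2002 / E ^ 2 * E ^ 2 ≤ 2002 := by field_simp; rfl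
  rw [rho, formR hs, formZ, min_le_iff] at hle
  rcases hle with hle | hle
  · simp only [height, max_le_iff, Prod.fst_add, Prod.snd_add] at hle
    refine lower hs h0 v.1 v.2 w.1 w.2 n1 n2 hd N E _ (-1) (Or.inr rfl) z1 z2 hNE hE he ?_ ?_ ?_
    · exact le_of_eq_of_le (congrArg _ (by ring)) hle.1
    · exact le_of_eq_of_le (congrArg _ (by ring)) hle.2.1
    · exact le_of_eq_of_le (congrArg _ (by ring)) hle.2.2
  · simp only [height, max_le_iff, Prod.fst_sub, Prod.snd_sub] at hle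
    refine lower hs h0 v.1 v.2 w.1 w.2 n1 n2 hd N E _ 1 (Or.inl rfl) z1 z2 hNE hE he ?_ ?_ ?_
    · rw [one_mul, abs_sub_comm]; exact hle.1
    · rw [one_mul, abs_sub_comm]; exact hle.2.1
    · rw [one_mul, abs_sub_comm]; exact hle.2.2

end

end Pool.Agent.Results.MP_b5c594_nt.Q1
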